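import Pool.Agent.Run7.h848.PF.Defs

/-!
# The rational K-groups of the powers of a variety over a finite field
-/

set_option autoImplicit false
set_option linter.unusedSectionVars false

open CategoryTheory Limits MonoidalCategory Module Filter Topology
open Pool.Agent.Y112.SR Pool.Agent.Y112.KD Pool.Agent.N64.AF
open Pool.Agent.Run7.h184.AJ
open scoped ENNReal

namespace Pool.Agent.Run7.h848.PF

universe v u w t x

variable {C : Type u} [Category.{v} C] [Preadditive C] [MonoidalCategory C]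
  [MonoidalPreadditive C] [SymmetricCategory C] [RightRigidCategory C]
  {Λ : Type t} [Field Λ] [CharZero Λ] [Linear Λ C] [MonoidalLinear Λ C]
  {K : Type w} [Field K] [Algebra Λ K] {R : SuperRealisation C K}

/-- The action of all morphisms on one element. -/
def act (F : C ⥤ ModuleCat.{x} Λ) [F.Additive] [F.Linear Λ] {Y : C} (v : F.obj Y) (Z : C) :
    (Y ⟶ Z) →ₗ[Λ] F.obj Z where
  toFun y := (F.map y).hom v
  map_add' y z := by rw [F.map_add]; rfl
  map_smul' c y := by rw [F.map_smul]; rfl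

/-- If `F` is zero at the unit object, and the strong form of the conjecture of Tate is true for the
endomorphism `φ` of `Y` and the number `a`, then each eigenvector of `φ` on `F(Y)` with the
eigenvalue `a` is killed by an endomorphism which is numerically equivalent to the identity. -/
theorem exists_kill (hR : IsReal Λ R) {Y : C} (F : C ⥤ ModuleCat.{x} Λ) [F.Additive] [F.Linear Λ]
    (h0 : Subsingleton (F.obj (𝟙_ C))) (φ : Y ⟶ Y) (a : Λ) (ht : StrongTate Λ R φ a)
    (v : F.obj Y) (hv : (F.map φ).hom v = a • v) :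
    ∃ e : Y ⟶ Y, (F.map e).hom v = 0 ∧ NumTriv (e - 𝟙 Y) := by
  obtain ⟨x, hx, hn⟩ := cut hR φ a ht (LinearMap.ker (act F v Y)) (fun y => by
      rw [LinearMap.mem_ker]
      change (F.map ((φ - a • 𝟙 Y) ≫ y)).hom v = 0
      have h1 : (F.map (φ - a • 𝟙 Y)).hom v = 0 := by
        have h2 : act F v Y (φ - a • 𝟙 Y) = act F v Y φ - a • act F v Y (𝟙 Y) := by
          rw [map_sub, map_smul]
        refine h2.trans ?_
        change (F.map φ).hom v - a • (F.map (𝟙 Y)).hom v = 0
        rw [hv, F.map_id, ModuleCat.hom_id, LinearMap.id_apply, sub_self]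
      rw [F.map_comp, ModuleCat.hom_comp, LinearMap.comp_apply, h1, map_zero])
    (fun b c => by
      rw [LinearMap.mem_ker]
      change (F.map (b ≫ c)).hom v = 0
      have h1 : (F.map b).hom v = 0 := Subsingleton.elim _ _
      rw [F.map_comp, ModuleCat.hom_comp, LinearMap.comp_apply, h1, map_zero])
  refine ⟨x, hx, ?_⟩
  have h1 : x - 𝟙 Y = -(𝟙 Y - x) := by abel
  rw [h1]
  exact (numIdeal Λ Y Y).neg_mem (mem_numIdeal.2 hn)

/-- If moreover numerically trivial endomorphisms of `Y` act nilpotently on `F(Y)`, then `a` is not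
an eigenvalue of `φ` on `F(Y)`. -/
theorem eig_zero (hR : IsReal Λ R) {Y : C} (F : C ⥤ ModuleCat.{x} Λ) [F.Additive] [F.Linear Λ]
    (h0 : Subsingleton (F.obj (𝟙_ C)))
    (hnil : ∀ y : Y ⟶ Y, NumTriv y → IsNilpotent ((F.map y).hom : Module.End Λ (F.obj Y)))
    (φ : Y ⟶ Y) (a : Λ) (ht : StrongTate Λ R φ a) (v : F.obj Y)
    (hv : (F.map φ).hom v = a • v) : v = 0 := by
  obtain ⟨x, hx, hn⟩ := exists_kill hR F h0 φ a ht v hv
  obtain ⟨k, hk⟩ := hnil _ hn
  have h1 : (F.map (x - 𝟙 Y)).hom v = (-1 : Λ) • v := by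
    have h2 : act F v Y (x - 𝟙 Y) = act F v Y x - act F v Y (𝟙 Y) := map_sub _ _ _
    have h3 : act F v Y x = 0 := hx
    rw [h3, zero_sub] at h2
    refine h2.trans ?_
    change -(F.map (𝟙 Y)).hom v = (-1 : Λ) • v
    rw [F.map_id, ModuleCat.hom_id, LinearMap.id_apply, neg_one_smul]
  have h2 : ∀ i : ℕ, (((F.map (x - 𝟙 Y)).hom : Module.End Λ (F.obj Y)) ^ i) v =
      ((-1 : Λ) ^ i) • v := by
    intro i
    induction i with
    | zero => rw [pow_zero, pow_zero, one_smul]; rfl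
    | succ i ih =>
      rw [pow_succ, Module.End.mul_apply]
      have h3 : ((F.map (x - 𝟙 Y)).hom : Module.End Λ (F.obj Y)) v = (-1 : Λ) • v := h1
      rw [h3, map_smul, ih, smul_smul, pow_succ, mul_comm]
  have h3 := h2 k
  rw [hk, LinearMap.zero_apply] at h3
  exact (smul_eq_zero.1 h3.symm).resolve_left (pow_ne_zero _ (neg_ne_zero.2 one_ne_zero))

namespace KTheory

variable {q : Λ} (P : KTheory.{v, u, t, x} C Λ q)

/-- If the K-group of `Y` is not zero in a weight in which the conjecture of Tate is true for `Y`, then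
the K-groups of the powers of `Y` are large. -/
theorem grows (hR : IsReal Λ R) (Y : C) (j : ℕ) (ht : P.Tate R Y j) (hne : P.wt Y j ≠ ⊥) :
    P.Grows Y := by
  intro a
  obtain ⟨v, hv, hv0⟩ := (Submodule.ne_bot_iff _).1 hne
  obtain ⟨e, he, he'⟩ := exists_kill hR P.Km P.point (P.fr Y) (q ^ j) ht v
    (Module.End.mem_eigenspace_iff.1 hv)
  by_cases hfin : Module.Finite Λ (P.Km.obj (tp Y (a + 1)))
  · rw [dimE_eq]
    exact_mod_cast phantom hR P.Km hv0 he he' a
  · rw [dimE_top hfin]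
    exact le_top

/-- If all parts are zero then the whole group is zero. -/
lemma exists_wt {Y : C} (h : ¬ Subsingleton (P.Km.obj Y)) : ∃ j, P.wt Y j ≠ ⊥ := by
  by_contra hcon
  push Not at hcon
  apply h
  have h1 := P.adams Y
  have h2 : ⨆ j : ℕ, Module.End.eigenspace (P.Km.map (P.fr Y)).hom (q ^ j) = ⊥ := by
    rw [eq_bot_iff]
    exact iSup_le fun j => (hcon j).le
  rw [h2] at h1
  have h3 : Subsingleton (Submodule Λ (P.Km.obj Y)) := subsingleton_of_bot_eq_top h1
  exact (Submodule.subsingleton_iff Λ).1 h3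

variable [IsAlgClosed K]

/-- If the limit is finite then the K-groups vanish in the weights in which the conjecture of Tate is
true. -/
theorem wt_zero {T : C} [ExactPairing T T] (h : IsPow Λ R T) {N : ℕ∞} (hN : N ≠ ⊤)
    (hlim : RatioTo Λ T (fun n => dimE Λ (P.Km.obj (tp T n))) N) (n j : ℕ)
    (ht : P.Tate R (tp T n) j) : P.wt (tp T n) j = ⊥ := by
  obtain ⟨N', h1, -, h3⟩ := law h P.Km
  have h4 : (N' : ℝ≥0∞) = N := tendsto_nhds_unique h1 hlim
  have h5 : N' = N := by exact_mod_cast h4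
  rw [h5] at h3
  obtain ⟨h6, -⟩ := h3 hN
  rw [eq_bot_iff]
  intro v hv
  rw [Submodule.mem_bot]
  exact eig_zero h.real P.Km P.point (h6 n).2.2 (P.fr _) (q ^ j) ht v
    (Module.End.mem_eigenspace_iff.1 hv)

/-- **The law, the gap, and the consequences of the conjecture of Tate.** -/
theorem main {T : C} [ExactPairing T T] (h : IsPow Λ R T) :
    (∀ (Y : C) (j : ℕ), P.Tate R Y j → P.wt Y j ≠ ⊥ → P.Grows Y) ∧
    (∀ Y : C, (∀ j, P.Tate R Y j) → ¬ Subsingleton (P.Km.obj Y) → P.Grows Y) ∧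
    (∃ N : ℕ∞, RatioTo Λ T (fun n => dimE Λ (P.Km.obj (tp T n))) N ∧
      (N = 0 ↔ ∀ n, Subsingleton (P.Km.obj (tp T n))) ∧
      (∀ k : ℕ, N = k → P.OfLength T k) ∧
      (∀ n j, P.Tate R (tp T n) j → P.wt (tp T n) j ≠ ⊥ → N = ⊤) ∧
      ((∀ n j, P.Tate R (tp T n) j) → N = 0 ∨ N = ⊤)) ∧
    ∀ m n : ℕ, 128 * (m + 1) ^ 2 * bt R T ^ (2 * m + 6) ≤ 2 * n →
      ¬ Subsingleton (P.Km.obj (tp T m)) →
        Large Λ R T n (dimE Λ (P.Km.obj (tp T (2 * n)))) := by
  refine ⟨fun Y j => P.grows h.real Y j, fun Y ht hY => ?_, ?_,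
    fun m n hn hm => gap h P.Km hn hm⟩
  · obtain ⟨j, hj⟩ := P.exists_wt hY
    exact P.grows h.real Y j (ht j) hj
  obtain ⟨N, h1, h2, h3⟩ := law h P.Km
  have key : ∀ n j, P.Tate R (tp T n) j → P.wt (tp T n) j ≠ ⊥ → N = ⊤ := by
    intro n j ht hne
    by_contra hN
    exact hne (P.wt_zero h hN h1 n j ht)
  refine ⟨N, h1, h2, ?_, key, ?_⟩
  · rintro k rfl
    obtain ⟨h4, m, l, z, hl, hz⟩ := h3 (ENat.natCast_ne_top k)
    exact ⟨fun n => (h4 n).1, (structure_thm h P.Km h1).2, m, l, z, by exact_mod_cast hl, hz⟩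
  · intro ht
    by_cases hN : ∀ n, Subsingleton (P.Km.obj (tp T n))
    · exact Or.inl (h2.2 hN)
    · obtain ⟨n, hn⟩ := not_forall.1 hN
      obtain ⟨j, hj⟩ := P.exists_wt hn
      exact Or.inr (key n j (ht n j) hj)

end KTheory

end Pool.Agent.Run7.h848.PF
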