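import Mathlib

/-!
# Linear algebra: a trace which vanishes
-/

set_option autoImplicit false

open Module Polynomial

namespace Pool.Agent.Run7.h848.PF

variable {K : Type*} [Field K] {H : Type*} [AddCommGroup H] [Module K H] [Module.Finite K H]

/-- Let `Φ` be an endomorphism, `a` a number, `E` an endomorphism which is the identity on the
generalized eigenspace of `Φ` for `a`. If `trace (B Φ ^ i (Φ - a)) = 0` and `trace (B E Φ ^ i) = 0`
for all `i`, then `trace B = 0`. -/
theorem trace_zero (Φ B E : End K H) (a : K)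
    (hE : ∀ v ∈ Φ.maxGenEigenspace a, E v = v)
    (h1 : ∀ i : ℕ, LinearMap.trace K H (B * Φ ^ i * (Φ - a • 1)) = 0)
    (h2 : ∀ i : ℕ, LinearMap.trace K H (B * E * Φ ^ i) = 0) : LinearMap.trace K H B = 0 := by
  classical
  -- linear combinations
  have h1' : ∀ p : K[X], LinearMap.trace K H (B * aeval Φ p * (Φ - a • 1)) = 0 := by
    intro p
    induction p using Polynomial.induction_on' with
    | add p q hp hq => rw [map_add, mul_add, add_mul, map_add, hp, hq, add_zero]
    | monomial n c =>
      rw [aeval_monomial]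
      have : B * ((algebraMap K (End K H)) c * Φ ^ n) * (Φ - a • 1) =
          c • (B * Φ ^ n * (Φ - a • 1)) := by
        rw [Algebra.algebraMap_eq_smul_one, smul_mul_assoc, one_mul, mul_smul_comm,
          smul_mul_assoc]
      rw [this, map_smul, h1, smul_zero]
  have h2' : ∀ p : K[X], LinearMap.trace K H (B * E * aeval Φ p) = 0 := by
    intro p
    induction p using Polynomial.induction_on' with
    | add p q hp hq => rw [map_add, mul_add, map_add, hp, hq, add_zero]
    | monomial n c =>
      rw [aeval_monomial]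
      have : B * E * ((algebraMap K (End K H)) c * Φ ^ n) = c • (B * E * Φ ^ n) := by
        rw [Algebra.algebraMap_eq_smul_one, smul_mul_assoc, one_mul, mul_smul_comm]
      rw [this, map_smul, h2, smul_zero]
  -- the polynomial
  obtain ⟨q, hq, hnd⟩ := exists_eq_pow_rootMultiplicity_mul_and_not_dvd (LinearMap.charpoly Φ)
    (LinearMap.charpoly_monic Φ).ne_zero a
  set n := rootMultiplicity a (LinearMap.charpoly Φ) with hn
  have hcop : IsCoprime ((X - C a) ^ (n + 1)) q :=
    IsCoprime.pow_left (((irreducible_X_sub_C a).coprime_iff_not_dvd).2 hnd)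
  obtain ⟨s, t, hst⟩ := hcop
  have hz : aeval Φ ((X - C a) ^ n * q) = 0 := by rw [← hq]; exact LinearMap.aeval_self_charpoly Φ
  have hX : aeval Φ (X - C a) = Φ - a • 1 := by
    rw [map_sub, aeval_X, aeval_C, Algebra.algebraMap_eq_smul_one]
  have hPi : ∀ v, aeval Φ (t * q) v ∈ Φ.maxGenEigenspace a := by
    intro v
    rw [Module.End.mem_maxGenEigenspace]
    refine ⟨n, ?_⟩
    have e1 : (Φ - a • 1) ^ n * aeval Φ (t * q) = 0 := by
      rw [← hX, ← map_pow, ← map_mul]
      have : (X - C a) ^ n * (t * q) = t * ((X - C a) ^ n * q) := by ring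
      rw [this, map_mul, hz, mul_zero]
    exact congrArg (fun g : End K H => g v) e1
  have hEPi : E * aeval Φ (t * q) = aeval Φ (t * q) := by
    ext v
    exact hE _ (hPi v)
  have hone : (1 : End K H) = aeval Φ (s * (X - C a) ^ n) * (Φ - a • 1) + aeval Φ (t * q) := by
    rw [← hX, ← map_mul, ← map_add]
    have : s * (X - C a) ^ n * (X - C a) + t * q = 1 := by rw [← hst, pow_succ]; ring
    rw [this, map_one]
  have e : B = B * aeval Φ (s * (X - C a) ^ n) * (Φ - a • 1) + B * E * aeval Φ (t * q) := by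
    rw [mul_assoc B E, hEPi, mul_assoc, ← mul_add, ← hone, mul_one]
  rw [e, map_add, h1', h2', add_zero]

/-- The generalized eigenspace is spanned by eigenvectors if there are enough of them; then an
operator which fixes them is the identity on it. -/
theorem fix_of_rank (Φ E : End K H) (a : K) {ι : Type*} [Fintype ι] (v : ι → H)
    (hv : LinearIndependent K v) (h1 : ∀ i, Φ (v i) = a • v i) (h2 : ∀ i, E (v i) = v i)
    (hr : finrank K (Φ.maxGenEigenspace a) ≤ Fintype.card ι) :
    ∀ w ∈ Φ.maxGenEigenspace a, E w = w := by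
  have hle : Submodule.span K (Set.range v) ≤ Φ.maxGenEigenspace a := by
    rw [Submodule.span_le]
    rintro _ ⟨i, rfl⟩
    change v i ∈ Φ.maxGenEigenspace a
    rw [Module.End.mem_maxGenEigenspace]
    refine ⟨1, ?_⟩
    rw [pow_one, LinearMap.sub_apply, h1, LinearMap.smul_apply, Module.End.one_apply, sub_self]
  have heq : Submodule.span K (Set.range v) = Φ.maxGenEigenspace a := by
    apply Submodule.eq_of_le_of_finrank_le hle
    rw [finrank_span_eq_card hv]
    exact hr
  intro w hw
  rw [← heq] at hw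
  have : Submodule.span K (Set.range v) ≤ LinearMap.eqLocus E LinearMap.id := by
    rw [Submodule.span_le]
    rintro _ ⟨i, rfl⟩
    exact h2 i
  exact this hw

section Rep

variable {Λ V : Type*} [Field Λ] [AddCommGroup V] [Module Λ V]

/-- A functional which vanishes on the common left and right kernel `W` of a bilinear form, of finite
codimension, is given by an element. -/
theorem rep (B : V →ₗ[Λ] V →ₗ[Λ] Λ) (W : Submodule Λ V) [Module.Finite Λ (V ⧸ W)]
    (h1 : ∀ x ∈ W, ∀ y, B x y = 0) (h2 : ∀ y, (∀ x, B x y = 0) ↔ y ∈ W)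
    (f : V →ₗ[Λ] Λ) (hf : ∀ x ∈ W, f x = 0) : ∃ g, ∀ x, f x = B x g := by
  obtain ⟨σ, hσ⟩ := W.mkQ.exists_rightInverse_of_surjective (Submodule.range_mkQ W)
  have hσ' : ∀ q : V ⧸ W, W.mkQ (σ q) = q := fun q => LinearMap.congr_fun hσ q
  have hW : ∀ x : V, x - σ (W.mkQ x) ∈ W := fun x => by
    rw [← Submodule.Quotient.mk_eq_zero, ← Submodule.mkQ_apply, map_sub, hσ', sub_self]
  let B' : (V ⧸ W) →ₗ[Λ] Module.Dual Λ (V ⧸ W) := (B.compl₁₂ σ σ).flip
  have hB' : ∀ p q, B' q p = B (σ p) (σ q) := fun _ _ => rfl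
  have hinj : Function.Injective B' := by
    rw [injective_iff_map_eq_zero]
    intro q hq
    have h3 : σ q ∈ W := by
      rw [← h2]
      intro x
      have h4 : B (σ (W.mkQ x)) (σ q) = 0 := by rw [← hB', hq]; rfl
      have h5 := h1 _ (hW x) (σ q)
      rw [map_sub, LinearMap.sub_apply, h4, sub_zero] at h5
      exact h5
    rw [← hσ' q]
    exact (Submodule.Quotient.mk_eq_zero _).2 h3
  have hd : finrank Λ (V ⧸ W) = finrank Λ (Module.Dual Λ (V ⧸ W)) :=
    (Subspace.dual_finrank_eq).symm
  have hsur : Function.Surjective B' :=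
    (LinearMap.injective_iff_surjective_of_finrank_eq_finrank hd).1 hinj
  obtain ⟨q, hq⟩ := hsur (f ∘ₗ σ)
  refine ⟨σ q, fun x => ?_⟩
  have h3 : f (σ (W.mkQ x)) = B (σ (W.mkQ x)) (σ q) := by rw [← hB', hq]; rfl
  have h4 := hf _ (hW x)
  have h5 := h1 _ (hW x) (σ q)
  rw [map_sub, sub_eq_zero] at h4
  rw [map_sub, LinearMap.sub_apply, sub_eq_zero] at h5
  rw [h4, h5, h3]

/-- Functionals which are linearly independent have dual vectors. -/
theorem dual_vectors {r : ℕ} (ℓ : Fin r → V →ₗ[Λ] Λ) (hℓ : LinearIndependent Λ ℓ) :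
    ∃ b : Fin r → V, ∀ k l, ℓ k (b l) = if k = l then 1 else 0 := by
  classical
  have hΦ : LinearMap.range (LinearMap.pi ℓ) = ⊤ := by
    by_contra hne
    obtain ⟨f, hf0, hf⟩ := Submodule.exists_le_ker_of_lt_top _ (lt_top_iff_ne_top.2 hne)
    apply hf0
    have h1 : ∑ k, f (Pi.single k 1) • ℓ k = 0 := by
      ext b
      have h2 : f (LinearMap.pi ℓ b) = 0 := hf ⟨b, rfl⟩
      have h3 : LinearMap.pi ℓ b = ∑ k, ℓ k b • (Pi.single k (1 : Λ) : Fin r → Λ) := by
        ext k
        simp [Finset.sum_apply, Pi.single_apply]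
      rw [h3, map_sum] at h2
      rw [LinearMap.sum_apply, LinearMap.zero_apply, ← h2]
      refine Finset.sum_congr rfl fun k _ => ?_
      rw [LinearMap.smul_apply, map_smul, smul_eq_mul, smul_eq_mul, mul_comm]
    have h6 := Fintype.linearIndependent_iff.1 hℓ _ h1
    apply LinearMap.pi_ext'
    intro k
    ext
    simp [h6 k]
  choose b hb using fun l : Fin r => (LinearMap.range_eq_top.1 hΦ) (Pi.single l 1)
  refine ⟨b, fun k l => ?_⟩
  have h1 : ℓ k (b l) = (Pi.single l (1 : Λ) : Fin r → Λ) k := congrFun (hb l) k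
  rw [h1, Pi.single_apply]

end Rep

end Pool.Agent.Run7.h848.PF
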