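import Pool.Agent.Run7.h184.AJ.Main
import Pool.Agent.Run7.h848.PF.LA

/-!
# Cutting out the eigenspaces of Frobenius by correspondences
-/

set_option autoImplicit false
set_option linter.unusedSectionVars false

open CategoryTheory Limits MonoidalCategory Module
open Pool.Agent.Y112.SR Pool.Agent.Y112.KD Pool.Agent.N64.AF
open Pool.Agent.Y116.MT (tr)

namespace Pool.Agent.Run7.h848.PF

universe v u w t x

section Defs

variable {C : Type u} [Category.{v} C] [Preadditive C] [MonoidalCategory C]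
  {Λ : Type t} [Field Λ] [Linear Λ C]

/-- The space of the morphisms `c : 𝟙 ⟶ Y` with `c ≫ φ = a • c`. -/
def eigCyc {Y : C} (φ : Y ⟶ Y) (a : Λ) : Submodule Λ (𝟙_ C ⟶ Y) :=
  LinearMap.ker (Linear.rightComp Λ (𝟙_ C) φ - a • LinearMap.id)

lemma mem_eigCyc {Y : C} {φ : Y ⟶ Y} {a : Λ} {c : 𝟙_ C ⟶ Y} :
    c ∈ eigCyc φ a ↔ c ≫ φ = a • c := by
  rw [eigCyc, LinearMap.mem_ker, LinearMap.sub_apply, LinearMap.smul_apply, LinearMap.id_apply,
    Linear.rightComp_apply, sub_eq_zero]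

end Defs

section Defs2

variable {C : Type u} [Category.{v} C] [Preadditive C] [MonoidalCategory C]
  [MonoidalPreadditive C] [SymmetricCategory C] [RightRigidCategory C]
  {Λ : Type t} [Field Λ] [Linear Λ C] [MonoidalLinear Λ C]

/-- The rank of the group of the cycles `c` with `c ≫ φ = a • c` modulo numerical equivalence. -/
noncomputable def eigRank {Y : C} (φ : Y ⟶ Y) (a : Λ) : ℕ :=
  finrank Λ ((eigCyc φ a).map (numIdeal Λ (𝟙_ C) Y).mkQ)

/-- The strong form of the conjecture of Tate for the eigenvalue `a` of the endomorphism `φ` of `Y`: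
the dimension of the generalized eigenspace on the realisation is (at most) the rank of the group of
the cycles with this eigenvalue modulo numerical equivalence. -/
def StrongTate (Λ : Type t) [Field Λ] [Linear Λ C] [MonoidalLinear Λ C] {K : Type w} [Field K]
    [Algebra Λ K] (R : SuperRealisation C K) {Y : C} (φ : Y ⟶ Y) (a : Λ) : Prop :=
  finrank K (Module.End.maxGenEigenspace (R.H.map φ).hom (algebraMap Λ K a)) ≤ eigRank φ a

end Defs2

variable {C : Type u} [Category.{v} C] [Preadditive C] [MonoidalCategory C]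
  [MonoidalPreadditive C] [SymmetricCategory C] [RightRigidCategory C]
  {Λ : Type t} [Field Λ] [CharZero Λ] [Linear Λ C] [MonoidalLinear Λ C]
  {K : Type w} [Field K] [Algebra Λ K] {R : SuperRealisation C K}

/-- Every functional which vanishes on the numerically trivial morphisms is a trace. -/
lemma exists_rep (hR : IsReal Λ R) {Y : C} (τ : (Y ⟶ Y) →ₗ[Λ] Λ)
    (hτ : ∀ a : Y ⟶ Y, tr a = τ a • 𝟙 (𝟙_ C))
    (hτ2 : ∀ a : Y ⟶ Y, algebraMap Λ K (τ a) =
      LinearMap.trace K (R.H.obj Y) (R.H.map a ≫ R.par Y).hom)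
    (f : (Y ⟶ Y) →ₗ[Λ] Λ) (hf : ∀ x : Y ⟶ Y, NumTriv x → f x = 0) :
    ∃ g : Y ⟶ Y, ∀ x : Y ⟶ Y, f x = τ (x ≫ g) := by
  have hfin := finite_num (Λ := Λ) hR Y Y
  have hiff : ∀ a : Y ⟶ Y, τ a = 0 ↔ tr a = 0 := by
    intro a
    rw [tr_eq_zero_iff hR, ← hτ2]
    exact (map_eq_zero (algebraMap Λ K)).symm
  exact rep ((Linear.comp (S := Λ) Y Y Y).compr₂ τ) (numIdeal Λ Y Y)
    (fun x hx y => (hiff _).2 (hx y))
    (fun y => ⟨fun h x => (tr_comm_zero hR y x).2 ((hiff _).1 (h x)),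
      fun h x => (hiff _).2 ((tr_comm_zero hR y x).1 (h x))⟩) f hf

/-- Dual classes. -/
lemma exists_dual (hR : IsReal Λ R) {Y : C} {r : ℕ} (c : Fin r → (𝟙_ C ⟶ Y))
    (hc : LinearIndependent Λ fun k => (numIdeal Λ (𝟙_ C) Y).mkQ (c k)) :
    ∃ b : Fin r → (Y ⟶ 𝟙_ C), ∀ k l, c k ≫ b l = if k = l then 𝟙 (𝟙_ C) else 0 := by
  obtain ⟨τ, hτ, -⟩ := exists_tau (Λ := Λ) hR (𝟙_ C)
  have hτ' : ∀ a : 𝟙_ C ⟶ 𝟙_ C, a = τ a • 𝟙 (𝟙_ C) := fun a => by
    rw [← hτ, tr_unit hR]
  have hli : LinearIndependent Λ fun k => (τ ∘ₗ Linear.leftComp Λ (𝟙_ C) (c k) :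
      (Y ⟶ 𝟙_ C) →ₗ[Λ] Λ) := by
    rw [Fintype.linearIndependent_iff]
    intro s hs
    have h3 : NumTriv (∑ k, s k • c k) := by
      rw [numTriv_unit_iff hR]
      intro b
      rw [Preadditive.sum_comp]
      have h4 : ∀ k, (s k • c k) ≫ b = (s k * τ (c k ≫ b)) • 𝟙 (𝟙_ C) := by
        intro k
        rw [Linear.smul_comp, hτ' (c k ≫ b), smul_smul, ← hτ' (c k ≫ b)]
      rw [Finset.sum_congr rfl fun k _ => h4 k, ← Finset.sum_smul]
      have h5 := congrArg (fun q : (Y ⟶ 𝟙_ C) →ₗ[Λ] Λ => q b) hs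
      simp only [LinearMap.sum_apply, LinearMap.smul_apply, LinearMap.comp_apply,
        Linear.leftComp_apply, smul_eq_mul, LinearMap.zero_apply] at h5
      rw [h5, zero_smul]
    have h5 : ∑ k, s k • (numIdeal Λ (𝟙_ C) Y).mkQ (c k) = 0 := by
      have : ∑ k, s k • (numIdeal Λ (𝟙_ C) Y).mkQ (c k) =
          (numIdeal Λ (𝟙_ C) Y).mkQ (∑ k, s k • c k) := by
        rw [map_sum]
        exact Finset.sum_congr rfl fun k _ => (map_smul _ _ _).symm
      rw [this]
      exact (Submodule.Quotient.mk_eq_zero _).2 h3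
    exact Fintype.linearIndependent_iff.1 hc _ h5
  obtain ⟨b, hb⟩ := dual_vectors _ hli
  refine ⟨b, fun k l => ?_⟩
  have h1 : τ (c k ≫ b l) = if k = l then 1 else 0 := hb k l
  rw [hτ' (c k ≫ b l), h1]
  split_ifs with h
  · rw [one_smul]
  · rw [zero_smul]

/-- Iterates. -/
def iter {Y : C} (φ : Y ⟶ Y) : ℕ → (Y ⟶ Y)
  | 0 => 𝟙 Y
  | i + 1 => iter φ i ≫ φ

lemma map_iter (R : SuperRealisation C K) {Y : C} (φ : Y ⟶ Y) (i : ℕ) :
    (R.H.map (iter φ i)).hom = ((R.H.map φ).hom : Module.End K (R.H.obj Y)) ^ i := by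
  induction i with
  | zero =>
    rw [iter, CategoryTheory.Functor.map_id, pow_zero]
    rfl
  | succ i ih =>
    rw [iter, Functor.map_comp, ModuleCat.hom_comp, ih, pow_succ']
    rfl

/-- **Cutting.** Suppose that the strong form of the conjecture of Tate is true for the
endomorphism `φ` of `Y` and the eigenvalue `a`. Let `I` be a space of endomorphisms of `Y` which
contains the products `(φ - a) ≫ y` and the endomorphisms which factor through the unit object.
Then `I` contains the identity modulo numerical equivalence. -/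
theorem cut (hR : IsReal Λ R) {Y : C} (φ : Y ⟶ Y) (a : Λ) (ht : StrongTate Λ R φ a)
    (I : Submodule Λ (Y ⟶ Y)) (h1 : ∀ y : Y ⟶ Y, (φ - a • 𝟙 Y) ≫ y ∈ I)
    (h2 : ∀ (b : Y ⟶ 𝟙_ C) (c : 𝟙_ C ⟶ Y), b ≫ c ∈ I) : ∃ x ∈ I, NumTriv (𝟙 Y - x) := by
  classical
  by_contra hcon
  have hYf := R.finite Y
  have hfin := finite_num (Λ := Λ) hR (𝟙_ C) Y
  obtain ⟨τ, hτ, hτ2⟩ := exists_tau (Λ := Λ) hR Y
  -- a functional
  have hnot : (𝟙 Y) ∉ I ⊔ numIdeal Λ Y Y := by
    intro h
    obtain ⟨x, hx, n, hn, hxn⟩ := Submodule.mem_sup.1 h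
    refine hcon ⟨x, hx, ?_⟩
    have : 𝟙 Y - x = n := by rw [← hxn, add_sub_cancel_left]
    rw [this]
    exact hn
  obtain ⟨f, hf0, hf⟩ := Submodule.exists_le_ker_of_notMem hnot
  obtain ⟨g, hg⟩ := exists_rep hR τ hτ hτ2 f
    (fun x hx => hf ((le_sup_right : numIdeal Λ Y Y ≤ _) hx))
  have hI : ∀ x ∈ I, τ (x ≫ g) = 0 := fun x hx => by
    rw [← hg]
    exact hf ((le_sup_left : I ≤ _) hx)
  apply hf0
  rw [hg, ← map_eq_zero (algebraMap Λ K), hτ2]
  -- the classes
  set r := eigRank φ a with hr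
  let b₀ := Module.finBasis Λ ((eigCyc φ a).map (numIdeal Λ (𝟙_ C) Y).mkQ)
  choose c hc1 hc2 using fun k => Submodule.mem_map.1 (b₀ k).2
  have hli : LinearIndependent Λ fun k => (numIdeal Λ (𝟙_ C) Y).mkQ (c k) := by
    have h3 := b₀.linearIndependent.map' (Submodule.subtype _) (Submodule.ker_subtype _)
    have h4 : (fun k => (numIdeal Λ (𝟙_ C) Y).mkQ (c k)) =
        (Submodule.subtype ((eigCyc φ a).map (numIdeal Λ (𝟙_ C) Y).mkQ)) ∘ b₀ :=
      funext fun k => hc2 k
    rw [h4]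
    exact h3
  obtain ⟨b, hb⟩ := exists_dual hR c hli
  -- the vectors
  let uε : R.H.obj (𝟙_ C) := (Functor.LaxMonoidal.ε R.H).hom (1 : K)
  have hu : uε ≠ 0 := by
    intro h0
    have h3 := congrArg (fun q : 𝟙_ (ModuleCat.{w} K) ⟶ 𝟙_ (ModuleCat.{w} K) => q.hom (1 : K))
      (Functor.Monoidal.ε_η R.H)
    have h4 : (Functor.OplaxMonoidal.η R.H).hom uε = (1 : K) := h3
    rw [h0, map_zero] at h4
    exact zero_ne_one h4
  let v : Fin (finrank Λ ((eigCyc φ a).map (numIdeal Λ (𝟙_ C) Y).mkQ)) → R.H.obj Y :=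
    fun k => (R.H.map (c k)).hom uε
  have hbv : ∀ k l, (R.H.map (b l)).hom (v k) = if k = l then uε else 0 := by
    intro k l
    have h3 : (R.H.map (b l)).hom (v k) = (R.H.map (c k ≫ b l)).hom uε := by
      rw [Functor.map_comp, ModuleCat.hom_comp]
      rfl
    rw [h3, hb k l]
    split_ifs with h
    · rw [CategoryTheory.Functor.map_id]
      rfl
    · rw [Functor.map_zero]
      rfl
  let Φ : Module.End K (R.H.obj Y) := (R.H.map φ).hom
  let E : Module.End K (R.H.obj Y) := ∑ k, (R.H.map (b k ≫ c k)).hom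
  let B : Module.End K (R.H.obj Y) := (R.H.map g ≫ R.par Y).hom
  have hEv : ∀ k, E (v k) = v k := by
    intro k
    change (∑ l, (R.H.map (b l ≫ c l)).hom : Module.End K (R.H.obj Y)) (v k) = v k
    rw [LinearMap.sum_apply]
    have h3 : ∀ l, (R.H.map (b l ≫ c l)).hom (v k) = if k = l then v l else 0 := by
      intro l
      have h4 : (R.H.map (b l ≫ c l)).hom (v k) =
          (R.H.map (c l)).hom ((R.H.map (b l)).hom (v k)) := by
        rw [Functor.map_comp, ModuleCat.hom_comp]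
        rfl
      rw [h4, hbv]
      split_ifs with h
      · rfl
      · rw [map_zero]
    rw [Finset.sum_congr rfl fun l _ => h3 l, Finset.sum_ite_eq]
    simp
  have hΦv : ∀ k, Φ (v k) = algebraMap Λ K a • v k := by
    intro k
    have h3 : Φ (v k) = (R.H.map (c k ≫ φ)).hom uε := by
      rw [Functor.map_comp, ModuleCat.hom_comp]
      rfl
    rw [h3, mem_eigCyc.1 (hc1 k), hR.lin]
    rfl
  have hvli : LinearIndependent K v := by
    rw [Fintype.linearIndependent_iff]
    intro s hs l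
    have h3 := congrArg (R.H.map (b l)).hom hs
    rw [map_sum, map_zero] at h3
    have h4 : ∀ k, (R.H.map (b l)).hom (s k • v k) = if k = l then s l • uε else 0 := by
      intro k
      rw [map_smul, hbv]
      split_ifs with h
      · rw [h]
      · rw [smul_zero]
    rw [Finset.sum_congr rfl fun k _ => h4 k, Finset.sum_ite_eq'] at h3
    simp only [Finset.mem_univ, if_true] at h3
    exact (smul_eq_zero.1 h3).resolve_right hu
  have hfix := fix_of_rank Φ E (algebraMap Λ K a) v hvli hΦv hEv (by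
    rw [Fintype.card_fin]
    exact ht)
  -- the traces
  have hst : ∀ y : Y ⟶ Y, y ∈ I →
      LinearMap.trace K (R.H.obj Y) (B * (R.H.map y).hom) = 0 := by
    intro y hy
    have h3 := hτ2 (y ≫ g)
    rw [hI y hy, map_zero, Functor.map_comp, Category.assoc, ModuleCat.hom_comp] at h3
    exact h3.symm
  have hfinal := trace_zero Φ B E (algebraMap Λ K a) hfix (fun i => ?_) (fun i => ?_)
  · have h3 : (R.H.map (𝟙 Y ≫ g) ≫ R.par Y).hom = B := by rw [Category.id_comp]
    rw [h3]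
    exact hfinal
  · have h3 := hst _ (h1 (iter φ i))
    have h4 : B * Φ ^ i * (Φ - algebraMap Λ K a • 1) =
        B * (R.H.map ((φ - a • 𝟙 Y) ≫ iter φ i)).hom := by
      rw [Functor.map_comp, ModuleCat.hom_comp, map_iter, Functor.map_sub, hR.lin,
        CategoryTheory.Functor.map_id, mul_assoc]
      rfl
    rw [h4]
    exact h3
  · have h3 : B * E * Φ ^ i = ∑ k, B * (R.H.map ((iter φ i ≫ b k) ≫ c k)).hom := by
      rw [mul_assoc, Finset.sum_mul, Finset.mul_sum]
      refine Finset.sum_congr rfl fun k _ => ?_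
      rw [Category.assoc, R.H.map_comp (iter φ i), ModuleCat.hom_comp, map_iter]
      rfl
    rw [h3, map_sum]
    exact Finset.sum_eq_zero fun k _ => hst _ (h2 _ _)

end Pool.Agent.Run7.h848.PF
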