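import Pool.Agent.Run7.h848.PF.Cut

/-!
# The rational K-groups of varieties over a finite field: definitions
-/

set_option autoImplicit false

open CategoryTheory Limits MonoidalCategory Module
open Pool.Agent.Y112.SR Pool.Agent.Y112.KD Pool.Agent.N64.AF

namespace Pool.Agent.Run7.h848.PF

universe v u w t x

/-- The data of the rational K-groups of the smooth projective varieties over the field with `q`
elements, for a fixed index `m ≥ 1`. In the intended use `C` is the category of the smooth
projective varieties over this field with the groups `CH^*(Y × Z)_ℚ` (all codimensions) as morphisms,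
`Λ = ℚ` and `Km Y = K_m(Y)_ℚ`; correspondences act by the isomorphism `K_m(Y)_ℚ = ⊕_j CH^j(Y, m)_ℚ`
(pull-back, product with the class, push-forward).

`fr Y` is the correspondence of the Frobenius endomorphism of `Y` (it acts by pull-back); `point` is
the theorem of Quillen that the groups `K_m(𝔽_q)`, `m ≥ 1`, are finite; `adams`: the group `K_m(Y)_ℚ` is
the direct sum of the eigenspaces `K_m(Y)_ℚ^(j)` of the Adams operations, on which the Frobenius
endomorphism acts as multiplication by `q ^ j`. -/
structure KTheory (C : Type u) [Category.{v} C] [Preadditive C] [MonoidalCategory C]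
    (Λ : Type t) [Field Λ] [Linear Λ C] (q : Λ) where
  /-- the Frobenius endomorphisms -/
  fr : ∀ Y : C, Y ⟶ Y
  /-- the functor of the rational K-groups of index `m` -/
  Km : C ⥤ ModuleCat.{x} Λ
  [additive : Km.Additive]
  [linear : Km.Linear Λ]
  point : Subsingleton (Km.obj (𝟙_ C))
  adams : ∀ Y : C, ⨆ j : ℕ, Module.End.eigenspace (Km.map (fr Y)).hom (q ^ j) = ⊤

attribute [instance] KTheory.additive KTheory.linear

namespace KTheory

variable {C : Type u} [Category.{v} C] [Preadditive C] [MonoidalCategory C]

section Wt

variable {Λ : Type t} [Field Λ] [Linear Λ C] {q : Λ} (P : KTheory.{v, u, t, x} C Λ q)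

/-- The part `K_m(Y)_ℚ^(j)` of weight `j`, where Frobenius acts as `q ^ j`. -/
def wt (Y : C) (j : ℕ) : Submodule Λ (P.Km.obj Y) :=
  Module.End.eigenspace (P.Km.map (P.fr Y)).hom (q ^ j)

end Wt

variable [MonoidalPreadditive C] [SymmetricCategory C] [RightRigidCategory C]
  {Λ : Type t} [Field Λ] [Linear Λ C] [MonoidalLinear Λ C] {q : Λ}
  (P : KTheory.{v, u, t, x} C Λ q)

/-- The strong form of the conjecture of Tate for the cycles of codimension `j` on `Y`: the
dimension of the generalized eigenspace of Frobenius for `q ^ j` on the cohomology of `Y` is (at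
most) the rank of the group of the cycles of codimension `j` (those on which Frobenius acts as
`q ^ j`) modulo numerical equivalence. -/
def Tate {K : Type w} [Field K] [Algebra Λ K] (R : SuperRealisation C K) (Y : C) (j : ℕ) : Prop :=
  StrongTate Λ R (P.fr Y) (q ^ j)

/-- The K-groups of the powers of `Y` are large: `dim K_m(Y ^ (a + 1))_ℚ ≥ (a + 1) ρ(Y ^ a)` for all
`a ≥ 0`, where `ρ` is the rank of the group of the cycles modulo numerical equivalence. -/
def Grows (Y : C) : Prop :=
  ∀ a : ℕ, (((a + 1) * numRank Λ (tp Y a) : ℕ) : ℕ∞) ≤ dimE Λ (P.Km.obj (tp Y (a + 1)))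

/-- The K-groups of all powers of `T` are finite-dimensional, each composition of `k` numerically
trivial correspondences between powers of `T` acts on them as zero, and they are generated, under
the action of the correspondences, by at most `k` elements of the K-group of one power. -/
def OfLength (T : C) (k : ℕ) : Prop :=
  (∀ n, Module.Finite Λ (P.Km.obj (tp T n))) ∧
  (∀ (a b : ℕ) (f : tp T a ⟶ tp T b), NumPow T k f → P.Km.map f = 0) ∧
  ∃ (m l : ℕ) (z : Fin l → P.Km.obj (tp T m)), l ≤ k ∧
    ∀ (n : ℕ) (y : P.Km.obj (tp T n)), y ∈ Submodule.span Λ {y : P.Km.obj (tp T n) |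
      ∃ (i : Fin l) (c : tp T m ⟶ tp T n), (P.Km.map c).hom (z i) = y}

end KTheory

end Pool.Agent.Run7.h848.PF
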